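import Mathlib
import Pool.Agent.Helper91.BohrN

/-!
# MP_cc4361_co, Q1: full affirmative answer

For every countable abelian group `G` and endomorphisms `φ₁, φ₂, φ₃` (not assumed to commute) with
`φ₁ + φ₂ + φ₃ = 0` whose images have finite index, and every `A ⊆ G` with `d*(A) > 0`, the sumset
`φ₁(A) + φ₂(A) + φ₃(A)` contains a Bohr set whose rank and radius depend only on a lower bound for
`d*(A)` and on the three indices.
-/

namespace Pool.Agent.Results.MP_cc4361_co.DensityNoncommuting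

open scoped Pointwise Topology
open Filter

universe u

/-- The Bohr set of rank `k` and radius `η` given by the characters `χ 0, ..., χ (k-1)` of the
discrete abelian group `G`: the set of `g` with `|χ j (g) - 1| < η` for all `j`. -/
def bohrSet {G : Type u} [AddCommGroup G] {k : ℕ} (χ : Fin k → AddChar G Circle) (η : ℝ) :
    Set G :=
  {g | ∀ j, ‖((χ j g : Circle) : ℂ) - 1‖ < η}

open Classical in
/-- A Folner sequence: nonempty finite subsets `F N` of `G` such that
`|F N △ (g + F N)| / |F N| → 0` for every `g`. -/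
def IsFolner {G : Type u} [AddCommGroup G] (F : ℕ → Finset G) : Prop :=
  (∀ N, (F N).Nonempty) ∧
    ∀ g : G, Tendsto (fun N => ((symmDiff (F N) ((F N).image (fun x => g + x))).card : ℝ) /
      ((F N).card : ℝ)) atTop (𝓝 0)

open Classical in
/-- The upper Banach density `d*(A)`: the supremum over all Folner sequences `F` of
`limsup |A ∩ F N| / |F N|`. -/
noncomputable def upperBanachDensity {G : Type u} [AddCommGroup G] (A : Set G) : ℝ :=
  sSup {d : ℝ | ∃ F : ℕ → Finset G, IsFolner F ∧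
    d = limsup (fun N => (((F N).filter (fun x => x ∈ A)).card : ℝ) / ((F N).card : ℝ)) atTop}

theorem result (δ : ℝ) (hδ : 0 < δ) (I₁ I₂ I₃ : ℕ) (h₁ : I₁ ≠ 0) (h₂ : I₂ ≠ 0) (h₃ : I₃ ≠ 0) :
    ∃ (k : ℕ) (η : ℝ), 0 < η ∧
      ∀ (G : Type u) [AddCommGroup G] [Countable G] (φ₁ φ₂ φ₃ : G →+ G),
        φ₁ + φ₂ + φ₃ = 0 →
        φ₁.range.index = I₁ → φ₂.range.index = I₂ → φ₃.range.index = I₃ →
        ∀ A : Set G, δ ≤ upperBanachDensity A →
          ∃ χ : Fin k → AddChar G Circle,
            bohrSet χ η ⊆ φ₁ '' A + φ₂ '' A + φ₃ '' A := by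
  classical
  have hδ' : 0 < min (δ / 2) 1 := lt_min (by linarith) one_pos
  obtain ⟨k, η, hη, H⟩ := Pool.Agent.Helper91.Bohr.q1_core.{u} (min (δ / 2) 1) hδ'
    (min_le_right _ _) I₁ I₂ I₃ h₁ h₂ h₃
  refine ⟨k, η, hη, fun G _ _ φ₁ φ₂ φ₃ hsum hφ₁ hφ₂ hφ₃ A hA => ?_⟩
  -- a Folner sequence with large upper density
  have hlt : δ / 2 < upperBanachDensity A := by linarith
  have hne : {d : ℝ | ∃ F : ℕ → Finset G, IsFolner F ∧
      d = limsup (fun N => (((F N).filter (fun x => x ∈ A)).card : ℝ) /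
        ((F N).card : ℝ)) atTop}.Nonempty := by
    by_contra hcon
    rw [Set.not_nonempty_iff_eq_empty] at hcon
    rw [upperBanachDensity, hcon, Real.sSup_empty] at hlt
    linarith
  obtain ⟨d, ⟨F, hF, rfl⟩, hd⟩ := exists_lt_of_lt_csSup hne hlt
  have hfreq := frequently_lt_of_lt_limsup (by
    refine IsCoboundedUnder.of_frequently_ge (a := 0) (Eventually.frequently ?_)
    exact Eventually.of_forall fun N => by positivity) hd
  obtain ⟨m₀, hm₀, hm₀A⟩ := Pool.Agent.Helper91.Bohr.exists_mean_of_folner F hF.1 hF.2 A (δ / 2)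
    hfreq
  obtain ⟨χ, hχ⟩ := H G φ₁ φ₂ φ₃ hsum hφ₁ hφ₂ hφ₃ (fun x => if x ∈ A then 1 else 0)
    (fun x => by split_ifs <;> norm_num) (fun x => by split_ifs <;> norm_num) m₀ hm₀
    ((min_le_left _ _).trans hm₀A)
  refine ⟨χ, fun w hw => ?_⟩
  obtain ⟨a, b, c, ha, hb, hc, hw'⟩ := hχ w hw
  have ha' : a ∈ A := by
    by_contra h
    exact ha (if_neg h)
  have hb' : b ∈ A := by
    by_contra h
    exact hb (if_neg h)
  have hc' : c ∈ A := by
    by_contra h
    exact hc (if_neg h)
  rw [← hw']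
  exact Set.add_mem_add (Set.add_mem_add (Set.mem_image_of_mem _ ha')
    (Set.mem_image_of_mem _ hb')) (Set.mem_image_of_mem _ hc')

end Pool.Agent.Results.MP_cc4361_co.DensityNoncommuting
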