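import Mathlib
import Pool.Agent.Helper91.BohrH

/-!
# MP_cc4361_co, Q2: full affirmative answer

For every abelian group `G` and endomorphisms `φ₁, φ₂` (not assumed to commute) whose images have
finite index, every finite partition of `G` has a cell `A` such that
`φ₁(A) + φ₂(A) - φ₂(A)` contains a Bohr set whose rank and radius depend only on the number of
cells and on the two indices.
-/

namespace Pool.Agent.Results.MP_cc4361_co.PartitionNoncommuting

open scoped Pointwise

universe u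

/-- The Bohr set of rank `k` and radius `η` given by the characters `χ 0, ..., χ (k-1)` of the
discrete abelian group `G`: the set of `g` with `|χ j (g) - 1| < η` for all `j`. -/
def bohrSet {G : Type u} [AddCommGroup G] {k : ℕ} (χ : Fin k → AddChar G Circle) (η : ℝ) :
    Set G :=
  {g | ∀ j, ‖((χ j g : Circle) : ℂ) - 1‖ < η}

theorem result (r I₁ I₂ : ℕ) (h₁ : I₁ ≠ 0) (h₂ : I₂ ≠ 0) :
    ∃ (k : ℕ) (η : ℝ), 0 < η ∧
      ∀ (G : Type u) [AddCommGroup G] (φ₁ φ₂ : G →+ G),
        φ₁.range.index = I₁ → φ₂.range.index = I₂ →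
        ∀ A : Fin r → Set G, (∀ g, ∃! i, g ∈ A i) →
          ∃ (i : Fin r) (χ : Fin k → AddChar G Circle),
            bohrSet χ η ⊆ φ₁ '' A i + φ₂ '' A i - φ₂ '' A i := by
  obtain ⟨k, η, hη, H⟩ := Pool.Agent.Helper91.Bohr.q2_core.{u} r I₁ I₂ h₁ h₂
  refine ⟨k, η, hη, fun G _ φ₁ φ₂ hφ₁ hφ₂ A hA => ?_⟩
  choose col hcol _ using hA
  obtain ⟨i, χ, hχ⟩ := H G φ₁ φ₂ hφ₁ hφ₂ col
  refine ⟨i, χ, fun w hw => ?_⟩
  obtain ⟨a, b, d, ha, hb, hd, hw'⟩ := hχ w hw
  have ha' : a ∈ A i := by rw [← ha]; exact hcol a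
  have hb' : b ∈ A i := by rw [← hb]; exact hcol b
  have hd' : d ∈ A i := by rw [← hd]; exact hcol d
  rw [← hw']
  exact Set.sub_mem_sub (Set.add_mem_add (Set.mem_image_of_mem _ ha') (Set.mem_image_of_mem _ hb'))
    (Set.mem_image_of_mem _ hd')

end Pool.Agent.Results.MP_cc4361_co.PartitionNoncommuting
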